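import Pool.Agent.helper74.VD.SpecI

/-!
# Row vd:APUE (MP_07c750_an): partitions of unity exist
-/

set_option autoImplicit false

open scoped ContDiff Topology InnerProductSpace ComplexConjugate ENNReal Manifold
open MeasureTheory Filter Set

namespace Pool.Agent.VD

noncomputable section

theorem APUE_proof : APUE_stmt := by
  intro d Γ _ _ K hK
  obtain ⟨R0, hR0⟩ := hK.compact.isBounded.subset_closedBall (0 : V d)
  obtain ⟨R, hR⟩ : ∃ R : ℝ, R = max R0 1 := ⟨_, rfl⟩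
  have hR1 : 1 ≤ R := by
    rw [hR]
    exact le_max_right _ _
  have hKR : ∀ x ∈ K, ‖x‖ ≤ R := by
    intro x hx
    have := hR0 hx
    rw [mem_closedBall_zero_iff] at this
    rw [hR]
    exact this.trans (le_max_left _ _)
  let b : ContDiffBump (0 : V d) := ⟨R, R + 1, by linarith, by linarith⟩
  have b1 : ∀ x : V d, ‖x‖ ≤ R → b x = 1 := fun x hx =>
    b.one_of_mem_closedBall (mem_closedBall_zero_iff.2 hx)
  have b2 : ∀ x : V d, b x ≠ 0 → ‖x‖ ≤ R + 1 := by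
    intro x hx
    have : x ∈ Function.support (b : V d → ℝ) := hx
    rw [b.support_eq] at this
    exact (mem_ball_zero_iff.1 this).le
  have b3 : ∀ x : V d, 0 ≤ b x ∧ b x ≤ 1 := fun x => ⟨b.nonneg, b.le_one⟩
  have b4 : ContDiff ℝ ∞ (b : V d → ℝ) := b.contDiff
  -- finiteness
  have fin0 : ∀ (x0 : V d) (r : ℝ), {γ : Γ | ∃ x : V d, ‖x - x0‖ ≤ r ∧ b (γ⁻¹ • x) ≠ 0}.Finite := by
    intro x0 r
    have h1 := hK.proper (Metric.closedBall x0 r ∪ Metric.closedBall (0 : V d) (R + 1))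
      ((isCompact_closedBall _ _).union (isCompact_closedBall _ _))
    have h2 : {γ : Γ | ∃ x : V d, ‖x - x0‖ ≤ r ∧ b (γ⁻¹ • x) ≠ 0} ⊆ (fun g : Γ => g⁻¹) ⁻¹'
        {γ : Γ | ∃ x ∈ Metric.closedBall x0 r ∪ Metric.closedBall (0 : V d) (R + 1),
          γ • x ∈ Metric.closedBall x0 r ∪ Metric.closedBall (0 : V d) (R + 1)} := by
      rintro γ ⟨x, hx, hb⟩
      exact ⟨x, Or.inl (by rwa [Metric.mem_closedBall, dist_eq_norm]),
        Or.inr (mem_closedBall_zero_iff.2 (b2 _ hb))⟩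
    exact (h1.preimage (inv_injective.injOn)).subset h2
  obtain ⟨f, hf⟩ : ∃ f : Γ → V d → ℝ, f = fun γ x => b (γ⁻¹ • x) ^ 2 := ⟨_, rfl⟩
  have hfa : ∀ γ x, f γ x = b (γ⁻¹ • x) ^ 2 := fun γ x => by rw [hf]
  have hf0 : ∀ γ x, 0 ≤ f γ x := fun γ x => by
    rw [hfa]
    positivity
  have hfs : ∀ γ, ContDiff ℝ ∞ (f γ) := by
    intro γ
    rw [hf]
    exact (b4.comp (hK.smooth γ⁻¹)).pow 2
  have hlf : LocallyFinite fun γ => Function.support (f γ) := by
    intro x0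
    refine ⟨Metric.ball x0 1, Metric.ball_mem_nhds x0 one_pos, (fin0 x0 1).subset ?_⟩
    rintro γ ⟨x, hx1, hx2⟩
    refine ⟨x, ?_, fun h => hx1 ?_⟩
    · rw [Metric.mem_ball, dist_eq_norm] at hx2
      exact hx2.le
    · show f γ x = 0
      rw [hfa, h]
      ring
  have hsf : ∀ x, (Function.support fun γ => f γ x).Finite := by
    intro x
    refine (fin0 x 0).subset ?_
    intro γ hγ
    refine ⟨x, by simp, fun h => hγ ?_⟩
    show f γ x = 0
    rw [hfa, h]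
    ring
  obtain ⟨s, hs⟩ : ∃ s : V d → ℝ, s = fun x => ∑ᶠ γ, f γ x := ⟨_, rfl⟩
  have hsa : ∀ x, s x = ∑ᶠ γ, f γ x := fun x => by rw [hs]
  have hss : ContDiff ℝ ∞ s := by
    rw [hs, ← contMDiff_iff_contDiff]
    exact contMDiff_finsum (fun γ => (hfs γ).contMDiff) hlf
  have hs1 : ∀ x, 1 ≤ s x := by
    intro x
    obtain ⟨γ, hγ⟩ := hK.cover x
    have h1 : f γ⁻¹ x = 1 := by
      rw [hfa, inv_inv, b1 _ (hKR _ hγ)]
      ring
    rw [hsa, ← h1]
    exact single_le_finsum γ⁻¹ (hsf x) (fun γ => hf0 γ x)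
  have hsinv : ∀ (g : Γ) (x : V d), s (g • x) = s x := by
    intro g x
    rw [hsa, hsa, ← finsum_comp_equiv (Equiv.mulLeft g)]
    refine finsum_congr fun γ => ?_
    rw [hfa, hfa, Equiv.coe_mulLeft, mul_inv_rev, ← mul_smul, mul_assoc, inv_mul_cancel, mul_one]
  have hsq : ∀ x, 1 ≤ Real.sqrt (s x) := fun x => Real.one_le_sqrt.2 (hs1 x)
  refine ⟨R + 2, fun x => b x / Real.sqrt (s x), ⟨?_, by linarith, ?_, ?_, ?_, ?_⟩, ?_⟩
  · refine b4.div (hss.sqrt fun x => ?_) fun x => ?_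
    · have := hs1 x
      linarith
    · have := hsq x
      linarith
  · intro x hx
    have h1 : b x ≠ 0 := fun h => hx (by rw [h, zero_div])
    have := b2 x h1
    linarith
  · intro x
    have h1 := hsq x
    have h2 := b3 x
    constructor
    · exact div_nonneg h2.1 (by linarith)
    · rw [div_le_one (by linarith)]
      linarith
  · intro x
    have h1 : ∀ γ : Γ, (b (γ⁻¹ • x) / Real.sqrt (s (γ⁻¹ • x))) ^ 2 = (s x)⁻¹ • f γ x := by
      intro γ
      rw [hsinv, div_pow, Real.sq_sqrt (by have := hs1 x; linarith), hfa, smul_eq_mul, div_eq_mul_inv, mul_comm]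
    show ∑ᶠ γ : Γ, (b (γ⁻¹ • x) / Real.sqrt (s (γ⁻¹ • x))) ^ 2 = 1
    rw [finsum_congr h1, ← smul_finsum, ← hsa, smul_eq_mul]
    exact inv_mul_cancel₀ (by have := hs1 x; linarith)
  · intro x
    obtain ⟨γ, hγ⟩ := hK.cover x
    have := hKR _ hγ
    exact ⟨γ, by linarith⟩
  · intro x hx
    have := hKR x hx
    linarith

end

end Pool.Agent.VD
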