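import Pool.Agent.helper93.VD.SpecB1

/-!
# Row vd:LPC (MP_07c750_an): the vertical plane enters the positive cone
-/

set_option autoImplicit false

open scoped ContDiff Topology InnerProductSpace
open MeasureTheory Filter Set

namespace Pool.Agent.VD

noncomputable section

theorem LPC_QQ {m : ℕ} (z : Z m) : QQ z ≤ ‖z.1‖ * ‖z.2‖ := real_inner_le_norm _ _

theorem LPC_proof : LPC_stmt := by
  intro m c C hc hC
  have hC0 : 0 < C := lt_of_lt_of_le one_pos hC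
  obtain ⟨K1, hK1⟩ : ∃ K1 : ℝ, K1 = C ^ 2 / c := ⟨_, rfl⟩
  have hK1p : 0 < K1 := by
    rw [hK1]
    positivity
  have hcK : c * K1 = C ^ 2 := by
    rw [hK1]
    field_simp
  obtain ⟨K2, hK2⟩ : ∃ K2 : ℝ, K2 = (1 + c) / c * K1 := ⟨_, rfl⟩
  have hK2p : 0 < K2 := by
    rw [hK2]
    positivity
  refine ⟨1 + K1 + K2, by linarith, fun L hL n hn w => ?_⟩
  have hstep : ∀ i (w : W m), QQ (pl L i (0, w)) + c * ‖pl L i (0, w)‖ ^ 2 ≤ QQ (pl L (i + 1) (0, w)) := fun i w =>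
    (hL i).hy (pl L i (0, w))
  have h0 : ∀ w : W m, QQ (pl L 0 (0, w)) = 0 := by
    intro w
    show ⟪(0 : W m), w⟫_ℝ = 0
    exact inner_zero_left _
  have hpos : ∀ i (w : W m), 0 ≤ QQ (pl L i (0, w)) := by
    intro i w
    induction i with
    | zero => exact (h0 w).ge
    | succ i ih =>
      have h1 := hstep i w
      have h2 : 0 ≤ c * ‖pl L i (0, w)‖ ^ 2 := by positivity
      linarith
  have hn0 : ∀ w : W m, ‖pl L 0 (0, w)‖ = ‖w‖ := by
    intro w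
    show ‖((0 : W m), w)‖ = ‖w‖
    rw [Prod.norm_mk, norm_zero]
    exact max_eq_right (norm_nonneg _)
  have hQn : ∀ z : Z m, QQ z ≤ ‖z‖ ^ 2 := by
    intro z
    refine (LPC_QQ z).trans ?_
    rw [sq]
    exact mul_le_mul (norm_fst_le z) (norm_snd_le z) (norm_nonneg _) (norm_nonneg _)
  have c1 : ∀ k (w : W m), c * (1 + c) ^ k * ‖w‖ ^ 2 ≤ QQ (pl L (k + 1) (0, w)) := by
    intro k w
    induction k with
    | zero =>
      have h1 := hstep 0 w
      rw [h0 w, hn0 w] at h1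
      simpa using h1
    | succ k ih =>
      have h1 := hstep (k + 1) w
      have h2 := hQn (pl L (k + 1) (0, w))
      have h3 : c * QQ (pl L (k + 1) (0, w)) ≤ c * ‖pl L (k + 1) (0, w)‖ ^ 2 := mul_le_mul_of_nonneg_left h2 hc.le
      have h4 : (1 + c) * (c * (1 + c) ^ k * ‖w‖ ^ 2) ≤ (1 + c) * QQ (pl L (k + 1) (0, w)) :=
        mul_le_mul_of_nonneg_left ih (by linarith)
      have h5 : c * (1 + c) ^ (k + 1) * ‖w‖ ^ 2 = (1 + c) * (c * (1 + c) ^ k * ‖w‖ ^ 2) := by ring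
      rw [h5]
      linarith
  have c2 : ∀ k (w : W m), ‖pl L (k + 1) (0, w)‖ ^ 2 ≤ K1 * (‖(pl L (k + 1) (0, w)).1‖ * ‖(pl L (k + 1) (0, w)).2‖) := by
    intro k w
    have h1 := hstep k w
    have h2 := hpos k w
    have h3 := LPC_QQ (pl L (k + 1) (0, w))
    have h4 : ‖pl L (k + 1) (0, w)‖ ≤ C * ‖pl L k (0, w)‖ := (hL k).bd _
    have h5 : ‖pl L (k + 1) (0, w)‖ ^ 2 ≤ C ^ 2 * ‖pl L k (0, w)‖ ^ 2 := by
      have := pow_le_pow_left₀ (norm_nonneg _) h4 2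
      rwa [mul_pow] at this
    have h6 : C ^ 2 * ‖pl L k (0, w)‖ ^ 2 = K1 * (c * ‖pl L k (0, w)‖ ^ 2) := by
      rw [← hcK]
      ring
    rw [h6] at h5
    refine h5.trans (mul_le_mul_of_nonneg_left ?_ hK1p.le)
    linarith
  have c3 : ∀ k (w : W m), ‖pl L (k + 1) (0, w)‖ ≤ K1 * ‖(pl L (k + 1) (0, w)).1‖ ∧
      ‖pl L (k + 1) (0, w)‖ ≤ K1 * ‖(pl L (k + 1) (0, w)).2‖ := by
    intro k w
    have h1 := c2 k w
    have h2 := norm_fst_le (pl L (k + 1) (0, w))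
    have h3 := norm_snd_le (pl L (k + 1) (0, w))
    have a1 := norm_nonneg (pl L (k + 1) (0, w)).1
    have a2 := norm_nonneg (pl L (k + 1) (0, w)).2
    rcases (norm_nonneg (pl L (k + 1) (0, w))).eq_or_lt with h | h
    · rw [← h]
      exact ⟨by positivity, by positivity⟩
    · constructor
      · refine le_of_mul_le_mul_right ?_ h
        rw [← sq]
        refine h1.trans ?_
        rw [mul_assoc]
        exact mul_le_mul_of_nonneg_left (mul_le_mul_of_nonneg_left h3 a1) hK1p.le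
      · refine le_of_mul_le_mul_right ?_ h
        rw [← sq]
        refine h1.trans ?_
        rw [mul_assoc, mul_comm ‖(pl L (k + 1) (0, w)).1‖]
        exact mul_le_mul_of_nonneg_left (mul_le_mul_of_nonneg_left h2 a2) hK1p.le
  have c4 : ∀ k (w : W m), (1 + c) ^ (k + 1) * ‖w‖ ^ 2 ≤ K2 * ‖(pl L (k + 1) (0, w)).1‖ ^ 2 := by
    intro k w
    have h1 := c1 k w
    have h2 := LPC_QQ (pl L (k + 1) (0, w))
    have h3 := (norm_snd_le (pl L (k + 1) (0, w))).trans (c3 k w).1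
    have h4 : ‖(pl L (k + 1) (0, w)).1‖ * ‖(pl L (k + 1) (0, w)).2‖ ≤
        ‖(pl L (k + 1) (0, w)).1‖ * (K1 * ‖(pl L (k + 1) (0, w)).1‖) := mul_le_mul_of_nonneg_left h3 (norm_nonneg _)
    have h5 : (1 + c) ^ (k + 1) * ‖w‖ ^ 2 = (1 + c) / c * (c * (1 + c) ^ k * ‖w‖ ^ 2) := by
      rw [pow_succ]
      field_simp
    have h6 : K2 * ‖(pl L (k + 1) (0, w)).1‖ ^ 2 = (1 + c) / c *
        (‖(pl L (k + 1) (0, w)).1‖ * (K1 * ‖(pl L (k + 1) (0, w)).1‖)) := by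
      rw [hK2]
      ring
    rw [h5, h6]
    exact mul_le_mul_of_nonneg_left (h1.trans (h2.trans h4)) (by positivity)
  obtain ⟨k, rfl⟩ : ∃ k, n = k + 1 := ⟨n - 1, by omega⟩
  have mono : ∀ t : ℝ, 0 ≤ t → K1 * t ≤ (1 + K1 + K2) * t ∧ K2 * t ≤ (1 + K1 + K2) * t := fun t ht =>
    ⟨mul_le_mul_of_nonneg_right (by linarith) ht, mul_le_mul_of_nonneg_right (by linarith) ht⟩
  refine ⟨c1 k w, (c3 k w).1.trans (mono _ (norm_nonneg _)).1, (c3 k w).2.trans (mono _ (norm_nonneg _)).1,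
    (c4 k w).trans (mono _ (by positivity)).2, ?_⟩
  refine abs_pos.2 fun hdet => ?_
  have h1 : LinearMap.det ((Bk (pl L (k + 1))) : W m →ₗ[ℝ] W m) = 0 := hdet
  obtain ⟨v, hv, hv0⟩ := (Submodule.ne_bot_iff _).1 (LinearMap.bot_lt_ker_of_det_eq_zero h1).ne'
  have h2 : (pl L (k + 1) (0, v)).1 = 0 := LinearMap.mem_ker.1 hv
  have h3 := c4 k v
  rw [h2, norm_zero] at h3
  have h4 : 0 < ‖v‖ := norm_pos_iff.2 hv0
  have h5 : 0 < (1 + c) ^ (k + 1) * ‖v‖ ^ 2 := by positivity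
  have h6 : K2 * (0 : ℝ) ^ 2 = 0 := by ring
  rw [h6] at h3
  linarith

end

end Pool.Agent.VD
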