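import Pool.Agent.helper93.VD.SpecB1

/-!
# Row vd:NSH (MP_07c750_an): shadowing
-/

set_option autoImplicit false

open scoped ContDiff Topology InnerProductSpace
open MeasureTheory Filter Set

namespace Pool.Agent.VD

noncomputable section

theorem NSH_proof (hNBD : NBD_stmt) (hNSU : NSU_stmt) (hNRC : NRC_stmt) (hNFD : NFD_stmt) : NSH_stmt := by
  intro m c C e0 hc hC he0
  obtain ⟨e1, μ, K, h1, h2, h3, h4, hB⟩ := hNBD m c C e0 hc hC he0
  obtain ⟨f1, g1, g2, hFD⟩ := hNFD m c C e0 hc hC he0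
  obtain ⟨s1, s2, K', t1, t2, t3, t4, hS⟩ := hNSU m c C (e0 / 2) hc hC (by linarith)
  obtain ⟨e, he⟩ : ∃ e : ℝ, e = min e1 f1 := ⟨_, rfl⟩
  have hep : 0 < e := by
    rw [he]
    exact lt_min h1 g1
  have hee1 : e ≤ e1 := by
    rw [he]
    exact min_le_left _ _
  have hef1 : e ≤ f1 := by
    rw [he]
    exact min_le_right _ _
  have hC0 : 0 < C := lt_of_lt_of_le one_pos hC
  have hK0 : 0 < K := lt_of_lt_of_le one_pos h4
  have hK'0 : 0 < K' := lt_of_lt_of_le one_pos t4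
  obtain ⟨e2, he2⟩ : ∃ e2 : ℝ, e2 = min e s2 / (9 * C * K * K') := ⟨_, rfl⟩
  have hM : 0 < 9 * C * K * K' := by positivity
  have he2p : 0 < e2 := by
    rw [he2]
    exact div_pos (lt_min hep t3) hM
  have hMe : 9 * C * K * K' * e2 ≤ e ∧ 9 * C * K * K' * e2 ≤ s2 := by
    have h5 : 9 * C * K * K' * e2 = min e s2 := by
      rw [he2]
      field_simp
    rw [h5]
    exact ⟨min_le_left _ _, min_le_right _ _⟩
  -- auxiliary products
  have q1 : 1 ≤ C * K := one_le_mul_of_one_le_of_one_le hC h4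
  have q2 : 1 ≤ C * K * K' := one_le_mul_of_one_le_of_one_le q1 t4
  have q3 : K ≤ C * K := le_mul_of_one_le_left hK0.le hC
  have q4 : C * K ≤ C * K * K' := le_mul_of_one_le_right (by positivity) t4
  have r0 : e2 ≤ C * K * e2 := le_mul_of_one_le_left he2p.le q1
  have r1 : K * e2 ≤ C * K * e2 := mul_le_mul_of_nonneg_right q3 he2p.le
  have r2 : C * K * e2 ≤ C * K * K' * e2 := mul_le_mul_of_nonneg_right q4 he2p.le
  have r3 : 9 * C * K * K' * e2 = 9 * (C * K * K' * e2) := by ring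
  rw [r3] at hMe
  have r4 : 0 < C * K * e2 := by positivity
  refine ⟨e, e2, μ, K, hep, hee1.trans h2, he2p, h3, h4, ?_⟩
  intro F n ε hF hε hε2 hF0 hn
  have apri : ∀ n : ℕ, 1 ≤ n → ∀ a : ℕ → Z m, Orb F n e a → ∀ k ≤ n,
      ‖a k‖ ≤ K * (ε + Real.exp (-(μ * k)) * ‖(a 0).1‖ + Real.exp (-(μ * (n - k))) * ‖(a n).1‖) := by
    intro n hn a ha k hk
    have p1 : POrb F n e1 ε a := by
      refine ⟨fun i hi => ?_, fun i hi => (ha.2 i hi).trans hee1⟩
      rw [ha.1 i hi, sub_self, norm_zero]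
      exact hε
    have p2 : POrb F n e1 ε (fun _ => (0 : Z m)) := by
      refine ⟨fun i hi => ?_, fun i hi => ?_⟩
      · rw [zero_sub, norm_neg]
        exact hF0 i
      · rw [norm_zero]
        exact h1.le
    have := hB F n ε a (fun _ => (0 : Z m)) hF hn hε p1 p2 k hk
    simpa only [sub_zero] using this
  have apri2 : ∀ n : ℕ, 1 ≤ n → ∀ a : ℕ → Z m, Orb F n e a → ‖(a 0).1‖ ≤ e2 → ‖(a n).1‖ ≤ e2 → ∀ k ≤ n,
      ‖a k‖ ≤ 3 * (K * e2) := by
    intro n hn a ha hx hy k hk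
    refine (apri n hn a ha k hk).trans ?_
    have hkn : (k : ℝ) ≤ n := by exact_mod_cast hk
    have p1 : Real.exp (-(μ * k)) ≤ 1 := Real.exp_le_one_iff.2 (by
      have : 0 ≤ μ * k := by positivity
      linarith)
    have p2 : Real.exp (-(μ * (n - k))) ≤ 1 := Real.exp_le_one_iff.2 (by
      have : 0 ≤ μ * (n - k) := mul_nonneg h3.le (by linarith)
      linarith)
    have p3 : Real.exp (-(μ * k)) * ‖(a 0).1‖ ≤ e2 :=
      (mul_le_of_le_one_left (norm_nonneg _) p1).trans hx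
    have p4 : Real.exp (-(μ * (n - k))) * ‖(a n).1‖ ≤ e2 :=
      (mul_le_of_le_one_left (norm_nonneg _) p2).trans hy
    have p5 : K * (ε + Real.exp (-(μ * k)) * ‖(a 0).1‖ + Real.exp (-(μ * (n - k))) * ‖(a n).1‖) ≤ K * (3 * e2) :=
      mul_le_mul_of_nonneg_left (by linarith) hK0.le
    linarith
  -- the step
  have step : ∀ (n : ℕ) (a : ℕ → Z m), (∀ i < n, a (i + 1) = F i (a i)) → (∀ i ≤ n, ‖a i‖ ≤ 3 * (K * e2)) → ∀ y : W m,
      ‖y‖ ≤ e2 → ∃ b : ℕ → Z m, Orb F (n + 1) e b ∧ (b 0).1 = (a 0).1 ∧ (b (n + 1)).1 = y := by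
    intro n a ha hab y hy
    obtain ⟨a', ha'⟩ : ∃ a' : ℕ → Z m, a' = fun i => if i ≤ n then a i else F n (a n) := ⟨_, rfl⟩
    have k1 : ∀ i ≤ n, a' i = a i := by
      intro i hi
      rw [ha']
      exact if_pos hi
    have k2 : a' (n + 1) = F n (a n) := by
      rw [ha']
      exact if_neg (by omega)
    have k3 : ∀ i ≤ n, a' (i + 1) = F i (a' i) := by
      intro i hi
      rcases hi.lt_or_eq with h | h
      · rw [k1 (i + 1) h, k1 i hi, ha i h]
      · rw [h, k2, k1 n le_rfl]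
    have k4 : ‖F n (a n)‖ ≤ 4 * (C * K * e2) := by
      have p0 : ‖a n‖ ≤ f1 := (hab n le_rfl).trans (by linarith)
      have p1 := (hFD (F n) (hF n) (a n) 0 p0 (by rw [norm_zero]; exact g1.le)).2.1
      rw [sub_zero] at p1
      have p2 : ‖F n (a n)‖ ≤ ‖F n (a n) - F n 0‖ + ‖F n 0‖ := by
        have := norm_add_le (F n (a n) - F n 0) (F n 0)
        rwa [sub_add_cancel] at this
      have p3 : C * ‖a n‖ ≤ C * (3 * (K * e2)) := mul_le_mul_of_nonneg_left (hab n le_rfl) hC0.le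
      have p4 := hF0 n
      have p5 : C * (3 * (K * e2)) = 3 * (C * K * e2) := by ring
      linarith
    have k5 : ∀ i ≤ n + 1, ‖a' i‖ ≤ 4 * (C * K * e2) := by
      intro i hi
      rcases Nat.lt_or_ge n i with h | h
      · have hi' : i = n + 1 := by omega
        rw [hi', k2]
        exact k4
      · rw [k1 i h]
        exact (hab i h).trans (by linarith)
    have k6 : ∀ i ≤ n + 1, ‖a' i‖ ≤ e0 / 2 := by
      intro i hi
      refine (k5 i hi).trans ?_
      have := hee1.trans h2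
      linarith
    obtain ⟨G, hG⟩ : ∃ G : ℕ → Z m → Z m, G = fun i u => F (min i n) (a' (min i n) + u) - a' (min i n + 1) := ⟨_, rfl⟩
    have l1 : ∀ i, HYP c C (e0 / 2) (G i) := by
      intro i
      rw [hG]
      exact hNRC m c C e0 (F (min i n)) (a' (min i n)) (a' (min i n + 1)) (hF _) (k6 _ (by omega))
    have l2 : ∀ i, G i 0 = 0 := by
      intro i
      rw [hG]
      show F (min i n) (a' (min i n) + 0) - a' (min i n + 1) = 0
      rw [add_zero, k3 _ (min_le_right _ _), sub_self]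
    have l3 : ‖y - (a' (n + 1)).1‖ ≤ 5 * (C * K * e2) := by
      have p1 := norm_sub_le y (a' (n + 1)).1
      have p2 := (norm_fst_le (a' (n + 1))).trans (k5 (n + 1) le_rfl)
      linarith
    obtain ⟨u, hu1, hu2, hu3⟩ := hS G (n + 1) l1 l2 (by omega) 0 (y - (a' (n + 1)).1) (by rw [norm_zero]; exact t3.le)
      (l3.trans (by linarith))
    have l4 : ∀ i ≤ n + 1, ‖it G i u‖ ≤ 5 * (C * K * K' * e2) := by
      intro i hi
      refine (hu3 i hi).1.trans ?_
      rw [norm_zero, zero_add]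
      have p1 : K' * ‖y - (a' (n + 1)).1‖ ≤ K' * (5 * (C * K * e2)) := mul_le_mul_of_nonneg_left l3 hK'0.le
      have p2 : K' * (5 * (C * K * e2)) = 5 * (C * K * K' * e2) := by ring
      linarith
    refine ⟨fun i => a' i + it G i u, ⟨fun i hi => ?_, fun i hi => ?_⟩, ?_, ?_⟩
    · show a' (i + 1) + G i (it G i u) = F i (a' i + it G i u)
      have p1 : min i n = i := by omega
      have p2 : G i (it G i u) = F i (a' i + it G i u) - a' (i + 1) := by
        rw [hG]
        show F (min i n) (a' (min i n) + _) - a' (min i n + 1) = _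
        rw [p1]
      rw [p2, add_sub_cancel]
    · have p1 := norm_add_le (a' i) (it G i u)
      have p2 := k5 i hi
      have p3 := l4 i hi
      show ‖a' i + it G i u‖ ≤ e
      linarith [hMe.1]
    · show (a' 0 + u).1 = (a 0).1
      rw [Prod.fst_add, hu1, add_zero, k1 0 (Nat.zero_le _)]
    · show (a' (n + 1) + it G (n + 1) u).1 = y
      rw [Prod.fst_add, hu2, add_sub_cancel]
  -- the induction
  have main : ∀ n : ℕ, ∀ x : W m, ‖x‖ ≤ e2 → ∃ a : ℕ → Z m, (∀ i < n, a (i + 1) = F i (a i)) ∧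
      (∀ i ≤ n, ‖a i‖ ≤ 3 * (K * e2)) ∧ (a 0).1 = x := by
    intro n
    induction n with
    | zero =>
      intro x hx
      refine ⟨fun _ => (x, 0), fun i hi => absurd hi (Nat.not_lt_zero _), fun i _ => ?_, rfl⟩
      show ‖(x, (0 : W m))‖ ≤ 3 * (K * e2)
      rw [Prod.norm_mk, norm_zero, max_eq_left (norm_nonneg _)]
      have : e2 ≤ K * e2 := le_mul_of_one_le_left he2p.le h4
      linarith
    | succ n ih =>
      intro x hx
      obtain ⟨a, ha1, ha2, ha3⟩ := ih x hx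
      obtain ⟨b, hb1, hb2, hb3⟩ := step n a ha1 ha2 0 (by rw [norm_zero]; exact he2p.le)
      refine ⟨b, hb1.1, ?_, hb2.trans ha3⟩
      refine apri2 (n + 1) (by omega) b hb1 ?_ ?_
      · rw [hb2, ha3]
        exact hx
      · rw [hb3, norm_zero]
        exact he2p.le
  intro x y hx hy
  obtain ⟨k, rfl⟩ : ∃ k, n = k + 1 := ⟨n - 1, by omega⟩
  obtain ⟨a, ha1, ha2, ha3⟩ := main k x hx
  obtain ⟨b, hb1, hb2, hb3⟩ := step k a ha1 ha2 y hy
  refine ⟨b, hb1, hb2.trans ha3, hb3, fun i hi => ?_⟩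
  have := apri (k + 1) hn b hb1 i hi
  rwa [hb2, ha3, hb3] at this

end

end Pool.Agent.VD
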