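import Pool.Agent.helper84.VD.SpecB2

/-!
# Row vd:SKA (MP_07c750_an): the chart of the section
-/

set_option autoImplicit false

open scoped ContDiff Topology InnerProductSpace ENNReal
open MeasureTheory Filter Set

namespace Pool.Agent.VD

noncomputable section

theorem SKA_proof (hSC1 : SC1_stmt) (hSIM : SIM_stmt) (hSFD : SFD_stmt) (hSFI : SFI_stmt) : SKA_stmt := by
  intro m C hC
  obtain ⟨M1, hM1, hFI⟩ := hSFI m C hC
  have hC0 : 0 < C := lt_of_lt_of_le one_pos hC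
  have hM10 : 0 < M1 := lt_of_lt_of_le one_pos hM1
  -- constants
  obtain ⟨M, hM⟩ : ∃ M : ℝ, M = C * (M1 * (1 + M1 * (C * M1))) + C + M1 + 2 * C := ⟨_, rfl⟩
  have hM2 : 0 < C * (M1 * (1 + M1 * (C * M1))) := by positivity
  have hMp : 1 ≤ M := by
    rw [hM]
    linarith
  have hM0 : 0 < M := lt_of_lt_of_le one_pos hMp
  have hMM : 1 ≤ M ^ 3 + M ^ 2 := by
    have h1 : 1 ≤ M ^ 3 := one_le_pow₀ hMp
    have h2 : 0 < M ^ 2 := by positivity
    linarith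
  obtain ⟨M', r', ρ, k1, k2, k3, k4, k5, hI⟩ := hSIM (M ^ 3 + M ^ 2) (1 / M) hMM (by positivity)
  obtain ⟨N, hN⟩ : ∃ N : ℝ, N = M' + M := ⟨_, rfl⟩
  have hNp : 1 ≤ N := by
    rw [hN]
    linarith
  have hN0 : 0 < N := lt_of_lt_of_le one_pos hNp
  have hr'1 : r' ≤ 1 := k3.trans (by rw [div_le_one hM0]; exact hMp)
  have hrr : r' / N ≤ r' := div_le_self k2.le hNp
  have hNN : 0 < N ^ 3 + N ^ 2 := by positivity
  have hCρ : 0 < C ^ 2 / ρ := by positivity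
  obtain ⟨C', hC'⟩ : ∃ C' : ℝ, C' = (N ^ 3 + N ^ 2) + M1 + C ^ 2 / ρ := ⟨_, rfl⟩
  have hC'1 : 1 ≤ C' := by
    rw [hC']
    linarith
  have hC'0 : 0 < C' := lt_of_lt_of_le one_pos hC'1
  refine ⟨C', r' / N, hC'1, by positivity, hrr.trans hr'1, ?_⟩
  intro Γ _ _ K G Φ D hG z hz e he
  obtain ⟨f1, f2, f3, f4, f5, f6, f7, f8⟩ := hFI Γ K G Φ D hG z hz e he
  obtain ⟨d1, d2, d3, d4, d5, d6, d7⟩ := hSFD m G z e hG.met hz.2 he
  obtain ⟨b1, b2, b3, b4, b5⟩ := hG.b0 z hz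
  -- the map `u ↦ ChT u`
  obtain ⟨T, hT1, hT2⟩ : ∃ T : V (m + 1) →L[ℝ] V (m + 1), (∀ u, T u = ChT G z.1 u z.2) ∧ ∀ u, ‖T u‖ ≤ C * ‖u‖ := by
    let T0 : P (m + 1) →ₗ[ℝ] V (m + 1) := IsLinearMap.mk' (Wc G z) (hG.wl z)
    let T1 : V (m + 1) →ₗ[ℝ] V (m + 1) := -(T0.comp (LinearMap.inl ℝ (V (m + 1)) (V (m + 1))))
    have h0 : ∀ u, T1 u = -(Wc G z (u, 0)) := fun u => rfl
    have h1 : ∀ u, T1 u = ChT G z.1 u z.2 := by
      intro u
      rw [h0]
      show -((0 : V (m + 1)) - ChT G z.1 u z.2) = ChT G z.1 u z.2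
      rw [zero_sub, neg_neg]
    refine ⟨LinearMap.toContinuousLinearMap T1, h1, fun u => ?_⟩
    show ‖T1 u‖ ≤ C * ‖u‖
    rw [h0, norm_neg]
    refine (b5 (u, 0)).trans ?_
    rw [Prod.norm_mk, norm_zero, max_eq_left (norm_nonneg _)]
  obtain ⟨es, hes⟩ : ∃ es : V (m + 1) →L[ℝ] W m, es = ContinuousLinearMap.adjoint e := ⟨_, rfl⟩
  have hesn : ‖es‖ ≤ M1 := by
    rw [hes, LinearIsometryEquiv.norm_map]
    exact f5
  rw [← hes] at d1 d2 d3 d4
  have hen : ∀ a, ‖e a‖ ≤ M1 * ‖a‖ := fun a => e.le_of_opNorm_le f5 a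
  have hesn' : ∀ u, ‖es u‖ ≤ M1 * ‖u‖ := fun u => es.le_of_opNorm_le hesn u
  have hGn : ∀ u, ‖G z.1 u‖ ≤ C * ‖u‖ := fun u => (G z.1).le_of_opNorm_le b2 u
  -- the affine map
  obtain ⟨AL, hAL, hALn⟩ : ∃ AL : ℝ × Z m →L[ℝ] P (m + 1),
      (∀ q, AL q = (e q.2.1, G z.1 (e (q.2.2 + es (T (e q.2.1)))) + q.1 • z.2)) ∧ ‖AL‖ ≤ M := by
    let l1 : ℝ × Z m →L[ℝ] W m := (ContinuousLinearMap.fst ℝ (W m) (W m)).comp (ContinuousLinearMap.snd ℝ ℝ (Z m))
    let l2 : ℝ × Z m →L[ℝ] W m := (ContinuousLinearMap.snd ℝ (W m) (W m)).comp (ContinuousLinearMap.snd ℝ ℝ (Z m))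
    let AL : ℝ × Z m →L[ℝ] P (m + 1) := ContinuousLinearMap.prod (e.comp l1)
      (((G z.1).comp (e.comp (l2 + es.comp (T.comp (e.comp l1))))) + (ContinuousLinearMap.fst ℝ ℝ (Z m)).smulRight z.2)
    have h1 : ∀ q, AL q = (e q.2.1, G z.1 (e (q.2.2 + es (T (e q.2.1)))) + q.1 • z.2) := fun q => rfl
    refine ⟨AL, h1, ContinuousLinearMap.opNorm_le_bound _ hM0.le fun q => ?_⟩
    rw [h1]
    have n1 : ‖q.2.1‖ ≤ ‖q‖ := (norm_fst_le q.2).trans (norm_snd_le q)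
    have n2 : ‖q.2.2‖ ≤ ‖q‖ := (norm_snd_le q.2).trans (norm_snd_le q)
    have n3 : ‖q.1‖ ≤ ‖q‖ := norm_fst_le q
    have n4 : ‖e q.2.1‖ ≤ M1 * ‖q‖ := (hen _).trans (mul_le_mul_of_nonneg_left n1 hM10.le)
    have n5 : ‖T (e q.2.1)‖ ≤ C * (M1 * ‖q‖) := (hT2 _).trans (mul_le_mul_of_nonneg_left n4 hC0.le)
    have n6 : ‖es (T (e q.2.1))‖ ≤ M1 * (C * (M1 * ‖q‖)) := (hesn' _).trans (mul_le_mul_of_nonneg_left n5 hM10.le)
    have n7 : ‖q.2.2 + es (T (e q.2.1))‖ ≤ ‖q‖ + M1 * (C * (M1 * ‖q‖)) := (norm_add_le _ _).trans (add_le_add n2 n6)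
    have n8 : ‖e (q.2.2 + es (T (e q.2.1)))‖ ≤ M1 * (‖q‖ + M1 * (C * (M1 * ‖q‖))) :=
      (hen _).trans (mul_le_mul_of_nonneg_left n7 hM10.le)
    have n9 : ‖G z.1 (e (q.2.2 + es (T (e q.2.1))))‖ ≤ C * (M1 * (‖q‖ + M1 * (C * (M1 * ‖q‖)))) :=
      (hGn _).trans (mul_le_mul_of_nonneg_left n8 hC0.le)
    have n10 : ‖q.1 • z.2‖ ≤ ‖q‖ * C := by
      rw [norm_smul]
      exact mul_le_mul n3 b1 (norm_nonneg _) (norm_nonneg _)
    have n11 : ‖G z.1 (e (q.2.2 + es (T (e q.2.1)))) + q.1 • z.2‖ ≤ C * (M1 * (‖q‖ + M1 * (C * (M1 * ‖q‖)))) + ‖q‖ * C :=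
      (norm_add_le _ _).trans (add_le_add n9 n10)
    have nq := norm_nonneg q
    have e1 : M * ‖q‖ = C * (M1 * (‖q‖ + M1 * (C * (M1 * ‖q‖)))) + ‖q‖ * C + (M1 * ‖q‖ + 2 * C * ‖q‖) := by
      rw [hM]
      ring
    have e2 : 0 ≤ M1 * ‖q‖ := by positivity
    have e3 : 0 ≤ 2 * C * ‖q‖ := by positivity
    have e4 : 0 ≤ C * (M1 * (‖q‖ + M1 * (C * (M1 * ‖q‖)))) + ‖q‖ * C := by positivity
    rw [Prod.norm_mk, e1]
    exact max_le (by linarith) (by linarith)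
  obtain ⟨A, hA⟩ : ∃ A : ℝ × Z m → P (m + 1), A = fun q => AL q + (z.1, 0) := ⟨_, rfl⟩
  have hAa : ∀ q, A q = (z.1 + e q.2.1, G z.1 (e (q.2.2 + es (T (e q.2.1)))) + q.1 • z.2) := by
    intro q
    rw [hA]
    show AL q + (z.1, 0) = _
    rw [hAL]
    ext1
    · show e q.2.1 + z.1 = z.1 + e q.2.1
      exact add_comm _ _
    · show G z.1 (e (q.2.2 + es (T (e q.2.1)))) + q.1 • z.2 + 0 = _
      rw [add_zero]
  have hA10 : A (1, 0) = z := by
    rw [hAa]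
    ext1
    · show z.1 + e 0 = z.1
      rw [map_zero, add_zero]
    · show G z.1 (e ((0 : W m) + es (T (e 0)))) + (1 : ℝ) • z.2 = z.2
      rw [map_zero, map_zero, map_zero, add_zero, map_zero, map_zero, one_smul, zero_add]
  -- the Hamiltonian
  have hHz : ∀ q : P (m + 1), nrm G q = 1 → Ham G q = 1 / 2 := by
    intro q hq
    unfold nrm at hq
    unfold Ham
    have h1 : ⟪IG G q.1 q.2, q.2⟫_ℝ = 1 := by
      have h2 : 0 ≤ ⟪IG G q.1 q.2, q.2⟫_ℝ := by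
        by_contra hneg
        rw [Real.sqrt_eq_zero_of_nonpos (not_le.1 hneg).le] at hq
        exact zero_ne_one hq
      have h3 := Real.sq_sqrt h2
      rw [hq] at h3
      linarith
    rw [h1]
  have hnz : ∀ q : P (m + 1), 2 * Ham G q - 1 = 0 → nrm G q = 1 := by
    intro q hq
    unfold Ham at hq
    unfold nrm
    have h1 : ⟪IG G q.1 q.2, q.2⟫_ℝ = 1 := by linarith
    rw [h1, Real.sqrt_one]
  obtain ⟨h0, hh0⟩ : ∃ h0 : P (m + 1) → ℝ, h0 = fun p => 2 * Ham G p - 1 := ⟨_, rfl⟩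
  have hHd : ∀ p, DifferentiableAt ℝ (Ham G) p := fun p => (hG.hs.differentiable (by simp)) p
  have hh0f : ∀ p, HasFDerivAt h0 ((2 : ℝ) • fderiv ℝ (Ham G) p) p := by
    intro p
    rw [hh0]
    exact ((hHd p).hasFDerivAt.const_mul 2).sub_const 1
  have hh0C : C11 M 1 z h0 := by
    refine ⟨fun p _ => (hh0f p).differentiableAt, fun p hp => ?_, fun p q hp hq => ?_⟩
    · rw [(hh0f p).fderiv, norm_smul, Real.norm_eq_abs, abs_of_pos two_pos]
      have := (hG.bh z hz p p hp hp).1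
      rw [hM]
      linarith
    · rw [(hh0f p).fderiv, (hh0f q).fderiv, ← smul_sub, norm_smul, Real.norm_eq_abs, abs_of_pos two_pos]
      have h1 := (hG.bh z hz p q hp hq).2
      have h2 : 2 * C * ‖p - q‖ ≤ M * ‖p - q‖ := mul_le_mul_of_nonneg_right (by rw [hM]; linarith) (norm_nonneg _)
      linarith
  have hAC : ∀ (N r : ℝ) (q : ℝ × Z m), M ≤ N → 0 < r → C11 N r q A := by
    intro N r q hMN hr
    rw [hA]
    exact (hSC1 (ℝ × Z m) (P (m + 1)) (P (m + 1)) N r q (hMp.trans hMN) hr).2.2.2.1 AL (z.1, 0) (hALn.trans hMN)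
  have hgC : C11 (M ^ 3 + M ^ 2) (1 / M) ((1 : ℝ), (0 : Z m)) (fun q => h0 (A q)) := by
    refine (hSC1 (ℝ × Z m) (P (m + 1)) ℝ M 1 (1, 0) hMp one_pos).2.1 A h0 (hAC M 1 _ le_rfl one_pos) ?_
    rw [hA10]
    exact hh0C
  have hgd : fderiv ℝ (fun q => h0 (A q)) ((1 : ℝ), (0 : Z m)) (1, 0) = 2 := by
    have h1 : HasFDerivAt A AL ((1 : ℝ), (0 : Z m)) := by
      rw [hA]
      exact AL.hasFDerivAt.add_const _
    have h2 : HasFDerivAt (fun q => h0 (A q)) (((2 : ℝ) • fderiv ℝ (Ham G) z).comp AL) ((1 : ℝ), (0 : Z m)) := by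
      have h3 := hh0f (A (1, 0))
      have h4 := h3.comp _ h1
      rw [hA10] at h4
      exact h4
    rw [h2.fderiv]
    show (2 : ℝ) * fderiv ℝ (Ham G) z (AL (1, 0)) = 2
    have h5 : AL (1, 0) = (0, z.2) := by
      rw [hAL]
      ext1
      · show e 0 = 0
        exact map_zero _
      · show G z.1 (e ((0 : W m) + es (T (e 0)))) + (1 : ℝ) • z.2 = z.2
        rw [map_zero, map_zero, map_zero, add_zero, map_zero, map_zero, one_smul, zero_add]
    have h6 : Wc G z (0, z.2) = z.2 := by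
      show z.2 - ChT G z.1 0 z.2 = z.2
      rw [← hT1, map_zero, sub_zero]
    rw [h5, hG.dh, h6, d5, mul_one]
  have hg0 : h0 (A (1, 0)) = 0 := by
    rw [hA10, hh0]
    show 2 * Ham G z - 1 = 0
    rw [hHz z hz.2]
    norm_num
  obtain ⟨τ, t1, t2⟩ := hI (Z m) (fun q => h0 (A q)) 1 0 hgC (by
    rw [hgd]
    have : 1 / (M ^ 3 + M ^ 2) ≤ 1 := by
      rw [div_le_one (by linarith)]
      exact hMM
    linarith) (by
    show |h0 (A (1, 0))| ≤ r'
    rw [hg0, abs_zero]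
    exact k2.le)
  have hτ0 : τ 0 = 1 := by
    refine ((t2 0 ?_).2.2.2 1 ?_ hg0).symm
    · rw [sub_self, norm_zero]
      exact k2.le
    · rw [sub_self, abs_zero]
      exact k4.le
  refine ⟨fun a => A (τ a, a), ⟨?_, ?_, ?_, ?_⟩⟩
  · -- c11
    have s1 : C11 N r' 0 (fun a : Z m => (τ a, a)) := by
      have s2 : C11 N r' (0 : Z m) τ := (hSC1 (Z m) ℝ ℝ M' r' 0 k1 k2).2.2.2.2 τ N r' t1 (by rw [hN]; linarith) le_rfl
      have s3 : C11 N r' (0 : Z m) (fun a : Z m => (ContinuousLinearMap.id ℝ (Z m)) a + 0) :=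
        (hSC1 (Z m) (Z m) (Z m) N r' 0 hNp k2).2.2.2.1 (ContinuousLinearMap.id ℝ (Z m)) 0
          (ContinuousLinearMap.norm_id_le.trans hNp)
      have s4 : (fun a : Z m => (ContinuousLinearMap.id ℝ (Z m)) a + 0) = fun a => a := by
        funext a
        show a + 0 = a
        exact add_zero a
      rw [s4] at s3
      exact (hSC1 (Z m) ℝ (Z m) N r' 0 hNp k2).2.2.1 τ (fun a => a) s2 s3
    have s5 : C11 (N ^ 3 + N ^ 2) (r' / N) 0 (fun a : Z m => A (τ a, a)) :=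
      (hSC1 (Z m) (ℝ × Z m) (P (m + 1)) N r' 0 hNp k2).2.1 (fun a : Z m => (τ a, a)) A s1
        (hAC N r' _ (by rw [hN]; linarith) k2)
    have s6 : 1 ≤ N ^ 3 + N ^ 2 := by
      have h1 : 1 ≤ N ^ 3 := one_le_pow₀ hNp
      have h2 : 0 < N ^ 2 := by positivity
      linarith
    exact (hSC1 (Z m) (P (m + 1)) ℝ (N ^ 3 + N ^ 2) (r' / N) 0 s6 (by positivity)).2.2.2.2 _ C' (r' / N) s5
      (by rw [hC']; linarith) le_rfl
  · show A (τ 0, 0) = z
    rw [hτ0, hA10]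
  · intro a ha
    have har : ‖a - 0‖ ≤ r' := by
      rw [sub_zero]
      exact ha.trans hrr
    have hga : h0 (A (τ a, a)) = 0 := (t2 a har).2.1
    refine ⟨hnz _ ?_, ?_, ?_⟩
    · rw [hh0] at hga
      exact hga
    · show (A (τ a, a)).1 = z.1 + e a.1
      rw [hAa]
    · have e1 : A (τ a, a) - z = (e a.1, G z.1 (e (a.2 + es (T (e a.1)))) + τ a • z.2 - z.2) := by
        rw [hAa]
        ext1
        · show z.1 + e a.1 - z.1 = e a.1
          exact add_sub_cancel_left _ _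
        · rfl
      show LL G z e (A (τ a, a) - z) = a
      rw [e1]
      unfold LL
      rw [← hes]
      ext1
      · show es (G z.1 (e a.1)) = a.1
        exact d3 a.1
      · show es (G z.1 (e (a.2 + es (T (e a.1)))) + τ a • z.2 - z.2 - ChT G z.1 (e a.1) z.2) = a.2
        rw [← hT1, map_sub, map_sub, map_add, d3, map_smul, d4, smul_zero, add_zero, sub_zero, add_sub_cancel_right]
  · intro q hq hqz hort
    obtain ⟨a, ha⟩ : ∃ a : Z m, a = LL G z e (q - z) := ⟨_, rfl⟩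
    rw [← ha]
    have hrN : 0 < r' / N := by positivity
    have ha1 : a.1 = es (G z.1 (q.1 - z.1)) := by
      rw [ha, hes]
      rfl
    have ha2 : a.2 = es (q.2 - z.2 - T (q.1 - z.1)) := by
      rw [ha, hes, hT1]
      rfl
    have har : ‖a‖ ≤ r' / N := by
      rw [ha]
      refine (f6 _).trans ?_
      have h1 : M1 * ‖q - z‖ ≤ M1 * (r' / N / C') := mul_le_mul_of_nonneg_left hqz hM10.le
      have h2 : M1 * (r' / N / C') = (M1 / C') * (r' / N) := by ring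
      have h3 : M1 / C' ≤ 1 := by
        rw [div_le_one hC'0, hC']
        linarith
      have h4 : (M1 / C') * (r' / N) ≤ 1 * (r' / N) := mul_le_mul_of_nonneg_right h3 hrN.le
      linarith
    have har' : ‖a - 0‖ ≤ r' := by
      rw [sub_zero]
      exact har.trans hrr
    have q1 : q.1 - z.1 = e a.1 := by
      have := d1 (q.1 - z.1)
      rw [hort, zero_smul, add_zero] at this
      rw [ha1]
      exact this
    have q2 : es q.2 = a.2 + es (T (e a.1)) := by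
      rw [ha2, q1, map_sub, map_sub, d4, sub_zero, sub_add_cancel]
    have q3 : q = A (⟪q.2, vel G z⟫_ℝ, a) := by
      rw [hAa]
      ext1
      · show q.1 = z.1 + e a.1
        rw [← q1]
        exact (add_sub_cancel _ _).symm
      · show q.2 = G z.1 (e (a.2 + es (T (e a.1)))) + ⟪q.2, vel G z⟫_ℝ • z.2
        rw [← q2]
        exact d2 q.2
    have q4 : |⟪q.2, vel G z⟫_ℝ - 1| ≤ ρ := by
      have h1 : ⟪q.2, vel G z⟫_ℝ - 1 = ⟪q.2 - z.2, vel G z⟫_ℝ := by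
        rw [inner_sub_left, d5]
      have h2 : ‖vel G z‖ ≤ C * C := by
        unfold vel
        exact (ContinuousLinearMap.le_of_opNorm_le _ b3 _).trans (mul_le_mul_of_nonneg_left b1 hC0.le)
      have h3 : ‖q.2 - z.2‖ ≤ r' / N / C' := (norm_snd_le (q - z)).trans hqz
      rw [h1]
      refine (abs_real_inner_le_norm _ _).trans ((mul_le_mul h3 h2 (norm_nonneg _) (by positivity)).trans ?_)
      have h4 : r' / N / C' * (C * C) = (r' / N) * (C ^ 2 / C') := by ring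
      have h5 : C ^ 2 / C' ≤ ρ := by
        rw [div_le_iff₀ hC'0]
        have h6 : ρ * (C ^ 2 / ρ) = C ^ 2 := by field_simp
        have h7 : ρ * (C ^ 2 / ρ) ≤ ρ * C' := mul_le_mul_of_nonneg_left (by rw [hC']; linarith) k4.le
        linarith
      rw [h4]
      have h8 : (r' / N) * (C ^ 2 / C') ≤ 1 * ρ := mul_le_mul (hrr.trans hr'1) h5 (by positivity) zero_le_one
      linarith
    have q5 : h0 (A (⟪q.2, vel G z⟫_ℝ, a)) = 0 := by
      rw [← q3, hh0]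
      show 2 * Ham G q - 1 = 0
      rw [hHz q hq]
      norm_num
    have q6 := (t2 a har').2.2.2 _ q4 q5
    show A (τ a, a) = q
    rw [← q6, ← q3]

end

end Pool.Agent.VD
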