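import Pool.Agent.helper11.VD.SpecR

/-!
# Row vd:SED (MP_07c750_an): the random series (adaptation of helper79/VN/SEN.lean)
-/

set_option autoImplicit false

open scoped ContDiff Topology InnerProductSpace ENNReal
open MeasureTheory Filter Set

namespace Pool.Agent.VD

open Pool.Agent.RPQ (PN PJ UN upd)
open Pool.Agent.VQ (rk)
open Pool.Agent.VN (aN)

noncomputable section

variable {d : ℕ}

theorem SED_cmul {f : V d → ℝ} (hf : ContDiff ℝ ∞ f) (a : ℝ) {L : Set (V d)} {n : ℕ} {c : ℝ} (h : DK L n f c) :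
    DK L n (fun x => a * f x) (|a| * c) := by
  intro x hx
  have h1 : ContDiffAt ℝ (n : WithTop ℕ∞) f x := (hf.of_le (by exact_mod_cast le_top)).contDiffAt
  have e : iteratedFDeriv ℝ n (fun x => a * f x) x = a • iteratedFDeriv ℝ n f x :=
    iteratedFDeriv_const_smul_apply (a := a) h1
  rw [e, norm_smul, Real.norm_eq_abs]
  exact mul_le_mul_of_nonneg_left (h x hx) (abs_nonneg a)

section main

variable {Γ : Type} [Group Γ] [MulAction Γ (V d)] {K0 : Set (V d)} {C : Set (V d) → ℕ → ℝ} {k0 : ℕ} {J : ℕ → ℕ}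
  {p : (k : ℕ) → Fin (J k) → V d} {χ : (k : ℕ) → Fin (J k) → V d → ℝ}

theorem SED_chi (hF : FamD Γ K0 C k0 J p χ) (k : ℕ) (j : Fin (J k)) : ContDiff ℝ ∞ (χ k j) ∧ Inv Γ (χ k j) := by
  rcases Nat.lt_or_ge k k0 with h | h
  · have h1 := j.2
    have h2 := hF.zero k h
    omega
  · exact ⟨(hF.net k h).smooth j, (hF.net k h).inv j⟩

theorem SED_lv (hF : FamD Γ K0 C k0 J p χ) (ζ : ℕ × ℕ → ℝ) (k : ℕ) : ContDiff ℝ ∞ (lD χ ζ k) ∧ Inv Γ (lD χ ζ k) := by
  refine ⟨?_, ?_⟩
  · have h1 : ContDiff ℝ ∞ (fun w : V d => aN k * ∑ j : Fin (J k), ζ (k, (j : ℕ)) * χ k j w) :=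
      contDiff_const.mul (ContDiff.sum fun j _ => contDiff_const.mul (SED_chi hF k j).1)
    exact h1
  · intro γ z
    show aN k * ∑ j : Fin (J k), ζ (k, (j : ℕ)) * χ k j (γ • z) = aN k * ∑ j : Fin (J k), ζ (k, (j : ℕ)) * χ k j z
    congr 1
    exact Finset.sum_congr rfl fun j _ => by rw [(SED_chi hF k j).2 γ z]

theorem SED_W (hSRD : SRD_stmt) (hF : FamD Γ K0 C k0 J p χ) (a : ℕ → ℝ) (ha : ∀ k, |a k| ≤ 1) (θ : ℕ → ℕ × ℕ → ℝ)
    (hθ : ∀ k q, |θ k q| ≤ 1) :
    (∀ z, Summable fun k => a k * lD χ (θ k) k z) ∧ ContDiff ℝ ∞ (fun z => ∑' k, a k * lD χ (θ k) k z) ∧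
    Inv Γ (fun z => ∑' k, a k * lD χ (θ k) k z) ∧
    ∀ (L : Set (V d)) (c : ℕ → ℕ → ℝ), (∀ n, Summable (c n)) → (∀ n k, 0 ≤ c n k) →
      (∀ (n k : ℕ) (ζ : ℕ × ℕ → ℝ), (∀ q, |ζ q| ≤ 1) → DK L n (lD χ ζ k) (c n k)) →
      (∀ n, Summable fun k => |a k| * c n k) ∧ ∀ n, DK L n (fun z => ∑' k, a k * lD χ (θ k) k z) (∑' k, |a k| * c n k) := by
  have h1 : ∀ k, ContDiff ℝ ∞ (fun z => a k * lD χ (θ k) k z) := fun k => contDiff_const.mul (SED_lv hF (θ k) k).1
  have h3 : ∀ c : ℕ → ℕ → ℝ, (∀ n, Summable (c n)) → (∀ n k, 0 ≤ c n k) → ∀ n, Summable fun k => |a k| * c n k := by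
    intro c hc hc0 n
    refine Summable.of_nonneg_of_le (fun k => mul_nonneg (abs_nonneg _) (hc0 n k)) (fun k => ?_) (hc n)
    exact mul_le_of_le_one_left (hc0 n k) (ha k)
  obtain ⟨s1, s2, s3⟩ := hSRD d (fun k z => a k * lD χ (θ k) k z) h1 (by
    intro L hL
    obtain ⟨c, C', hc, hc0, hcb, -⟩ := hF.sum L hL
    exact ⟨fun n k => |a k| * c n k, h3 c hc hc0, fun n k =>
      SED_cmul (SED_lv hF (θ k) k).1 (a k) (hcb n k (θ k) (hθ k))⟩)
  refine ⟨s2, s1, fun γ z => ?_, fun L c hc hc0 hcb => ⟨h3 c hc hc0, fun n x hx => ?_⟩⟩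
  · show ∑' k, a k * lD χ (θ k) k (γ • z) = ∑' k, a k * lD χ (θ k) k z
    exact tsum_congr fun k => by rw [(SED_lv hF (θ k) k).2 γ z]
  · rw [s3 x n]
    exact tsum_of_norm_bounded (h3 c hc hc0 n).hasSum fun k =>
      SED_cmul (SED_lv hF (θ k) k).1 (a k) (hcb n k (θ k) (hθ k)) x hx

end main

theorem SED_proof (hSRD : SRD_stmt) : SED_stmt := by
  intro d Γ _ _ K0 C k0 J p χ hK0 hF
  have hW := fun a ha θ hθ => SED_W hSRD hF a ha θ hθ
  have hbD : ∀ (K : ℕ) (ζ : ℕ × ℕ → ℝ) (x : V d), bD χ K ζ x = ∑' k, (if k < K then (1 : ℝ) else 0) * lD χ ζ k x := by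
    intro K ζ x
    unfold bD
    rw [tsum_eq_sum (s := Finset.range K)]
    · refine Finset.sum_congr rfl fun k hk => ?_
      rw [if_pos (Finset.mem_range.1 hk), one_mul]
    · intro k hk
      rw [if_neg (fun h => hk (Finset.mem_range.2 h)), zero_mul]
  refine ⟨fun ζ hζ => ?_, fun L hL => ?_⟩
  · obtain ⟨-, w2, w3, -⟩ := hW (fun _ => 1) (fun _ => by simp) (fun _ => ζ) (fun _ => hζ)
    have e : (fun z => ∑' k, (1 : ℝ) * lD χ ζ k z) = rD χ ζ := by
      funext z
      simp only [one_mul]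
      rfl
    rw [e] at w2 w3
    refine ⟨w2, w3, fun K => ⟨?_, ?_, ?_, ?_⟩⟩
    · exact ContDiff.sum fun k _ => (SED_lv hF ζ k).1
    · intro γ z
      exact Finset.sum_congr rfl fun k _ => (SED_lv hF ζ k).2 γ z
    · exact ContDiff.sum fun k _ => (SED_lv hF ζ k).1
    · intro γ z
      exact Finset.sum_congr rfl fun k _ => (SED_lv hF ζ k).2 γ z
  · obtain ⟨c, C', hc, hc0, hcb, -⟩ := hF.sum L hL
    have hle : ∀ (a : ℕ → ℝ), (∀ k, |a k| ≤ 1) → ∀ n, ∑' k, |a k| * c n k ≤ ∑' k, c n k := by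
      intro a ha n
      refine Summable.tsum_le_tsum (fun k => mul_le_of_le_one_left (hc0 n k) (ha k)) ?_ (hc n)
      exact Summable.of_nonneg_of_le (fun k => mul_nonneg (abs_nonneg _) (hc0 n k))
        (fun k => mul_le_of_le_one_left (hc0 n k) (ha k)) (hc n)
    refine ⟨⟨fun n => ∑' k, c n k, fun ζ hζ n => ?_⟩, fun n1 s hs => ?_⟩
    · have key : ∀ (a : ℕ → ℝ) (G : V d → ℝ), (∀ k, |a k| ≤ 1) → (∀ z, G z = ∑' k, a k * lD χ ζ k z) →
          DK L n G (∑' k, c n k) := by
        intro a G ha hG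
        obtain ⟨-, -, -, w4⟩ := hW a ha (fun _ => ζ) (fun _ => hζ)
        have e : G = fun z => ∑' k, a k * lD χ ζ k z := funext hG
        rw [e]
        exact fun x hx => ((w4 L c hc hc0 hcb).2 n x hx).trans (hle a ha n)
      refine ⟨key (fun _ => 1) _ (fun _ => by simp) (fun z => ?_), fun K => ?_⟩
      · simp only [one_mul]
        rfl
      · refine key (fun k => if k < K then 1 else 0) _ (fun k => ?_) (fun z => hbD K ζ z)
        split_ifs <;> simp
    · have htail : ∀ n, ∀ᶠ K : ℕ in atTop, (1 / 2 ^ K : ℝ) * (∑' k, c n k) + ∑' k, c n (k + K) < s := by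
        intro n
        have t1 : Tendsto (fun K : ℕ => ∑' k, c n (k + K)) atTop (𝓝 0) := tendsto_sum_nat_add (c n)
        have t2 : Tendsto (fun K : ℕ => (1 / 2 ^ K : ℝ)) atTop (𝓝 0) := by
          have := tendsto_pow_atTop_nhds_zero_of_lt_one (r := (1 / 2 : ℝ)) (by norm_num) (by norm_num)
          simpa [one_div, inv_pow] using this
        have t3 := (t2.mul_const (∑' k, c n k)).add t1
        rw [zero_mul, zero_add] at t3
        exact t3.eventually (gt_mem_nhds hs)
      have htail2 : ∀ᶠ K : ℕ in atTop, ∀ n ∈ Finset.range (n1 + 1),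
          (1 / 2 ^ K : ℝ) * (∑' k, c n k) + ∑' k, c n (k + K) < s :=
        (Filter.eventually_all_finset (Finset.range (n1 + 1))).2 fun n _ => htail n
      obtain ⟨K1, hK1⟩ := Filter.eventually_atTop.1 htail2
      refine ⟨K1, fun K ζ v m hK hζ hm hmK hv n hn => ?_⟩
      have hm1 : m ≤ 1 := by
        refine hmK.trans ?_
        rw [div_le_one (by positivity)]
        exact one_le_pow₀ (by norm_num)
      let a : ℕ → ℝ := fun k => if k < K then -m else 1
      let θ : ℕ → ℕ × ℕ → ℝ := fun k q =>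
        if k < K then (if q.1 = k ∧ q.2 < J k then (v q - ζ q) / m else 0) else ζ q
      have ha : ∀ k, |a k| ≤ 1 := by
        intro k
        show |if k < K then -m else 1| ≤ 1
        split_ifs
        · rw [abs_neg, abs_of_pos hm]
          exact hm1
        · simp
      have hθ : ∀ k q, |θ k q| ≤ 1 := by
        intro k q
        show |if k < K then (if q.1 = k ∧ q.2 < J k then (v q - ζ q) / m else 0) else ζ q| ≤ 1
        split_ifs with h1 h2
        · rw [abs_div, abs_of_pos hm, div_le_one hm]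
          refine hv q (by omega) (by omega) ?_
          rw [h2.1]
          exact h2.2
        · simp
        · exact hζ q
      obtain ⟨w1, w2, w3, w45⟩ := hW a ha θ hθ
      obtain ⟨w4, w5⟩ := w45 L c hc hc0 hcb
      have e : (fun z => rD χ ζ z - bD χ K v z) = fun z => ∑' k, a k * lD χ (θ k) k z := by
        ext z
        obtain ⟨u1, -⟩ := hW (fun _ => 1) (fun _ => by simp) (fun _ => ζ) (fun _ => hζ)
        have u2 : Summable fun k => lD χ ζ k z := by
          have := u1 z
          simpa only [one_mul] using this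
        have u3 : ∑ k ∈ Finset.range K, lD χ v k z = ∑' k, if k < K then lD χ v k z else 0 := by
          rw [tsum_eq_sum (s := Finset.range K)]
          · exact Finset.sum_congr rfl fun k hk => by rw [if_pos (Finset.mem_range.1 hk)]
          · intro k hk
            rw [if_neg (fun h => hk (Finset.mem_range.2 h))]
        have u4 : Summable fun k => if k < K then lD χ v k z else 0 := by
          apply summable_of_ne_finset_zero (s := Finset.range K)
          intro k hk
          rw [if_neg (fun h => hk (Finset.mem_range.2 h))]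
        unfold bD rD
        rw [u3, ← u2.tsum_sub u4]
        refine tsum_congr fun k => ?_
        by_cases hk : k < K
        · have e1 : a k = -m := if_pos hk
          rw [if_pos hk, e1]
          show aN k * ∑ j : Fin (J k), ζ (k, (j : ℕ)) * χ k j z - aN k * ∑ j : Fin (J k), v (k, (j : ℕ)) * χ k j z =
            -m * (aN k * ∑ j : Fin (J k), θ k (k, (j : ℕ)) * χ k j z)
          have e2 : ∑ j : Fin (J k), θ k (k, (j : ℕ)) * χ k j z =
              (∑ j : Fin (J k), v (k, (j : ℕ)) * χ k j z - ∑ j : Fin (J k), ζ (k, (j : ℕ)) * χ k j z) / m := by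
            rw [← Finset.sum_sub_distrib, Finset.sum_div]
            refine Finset.sum_congr rfl fun j _ => ?_
            have e3 : θ k (k, (j : ℕ)) = (v (k, (j : ℕ)) - ζ (k, (j : ℕ))) / m := by
              show (if k < K then (if k = k ∧ (j : ℕ) < J k then (v (k, (j : ℕ)) - ζ (k, (j : ℕ))) / m else 0)
                else ζ (k, (j : ℕ))) = _
              rw [if_pos hk, if_pos ⟨rfl, j.2⟩]
            rw [e3]
            ring
          rw [e2]
          field_simp
          ring
        · have e1 : a k = 1 := if_neg hk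
          have e2 : θ k = ζ := by
            funext q
            exact if_neg hk
          rw [if_neg hk, e1, e2, one_mul, sub_zero]
      rw [e]
      refine fun x hx => (w5 n x hx).trans ?_
      have e1 : ∑' k, |a k| * c n k = ∑ k ∈ Finset.range K, |a k| * c n k + ∑' k, |a (k + K)| * c n (k + K) :=
        ((w4 n).sum_add_tsum_nat_add K).symm
      have e2 : ∑ k ∈ Finset.range K, |a k| * c n k ≤ m * ∑' k, c n k := by
        have e3 : ∑ k ∈ Finset.range K, |a k| * c n k = m * ∑ k ∈ Finset.range K, c n k := by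
          rw [Finset.mul_sum]
          refine Finset.sum_congr rfl fun k hk => ?_
          have e4 : a k = -m := if_pos (Finset.mem_range.1 hk)
          rw [e4, abs_neg, abs_of_pos hm]
        rw [e3]
        exact mul_le_mul_of_nonneg_left ((hc n).sum_le_tsum _ fun k _ => hc0 n k) hm.le
      have e3 : ∑' k, |a (k + K)| * c n (k + K) = ∑' k, c n (k + K) := by
        refine tsum_congr fun k => ?_
        have e4 : a (k + K) = 1 := if_neg (by omega)
        rw [e4, abs_one, one_mul]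
      have e5 : m * ∑' k, c n k ≤ (1 / 2 ^ K) * ∑' k, c n k :=
        mul_le_mul_of_nonneg_right hmK (tsum_nonneg fun k => hc0 n k)
      have e6 : (1 / 2 ^ K : ℝ) * (∑' k, c n k) + ∑' k, c n (k + K) < s :=
        hK1 K hK n (Finset.mem_range.2 (by omega))
      rw [e1, e3]
      linarith

end

end Pool.Agent.VD
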